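import Mathlib

/-! Simultaneous approximation (Dirichlet), by the pigeonhole principle. -/

namespace Pool.Agent.Few

theorem dirichlet_int {ι : Type*} (s : Finset ι) (g : ι → ℝ) (T : ℕ) (hT : 1 ≤ T) :
    ∃ q : ℕ, 1 ≤ q ∧ q ≤ T ^ s.card ∧ ∀ i ∈ s, ∃ z : ℤ, |q * g i - z| ≤ 1 / T := by
  classical
  have hT0 : (0 : ℝ) < T := by exact_mod_cast hT
  -- pigeonhole
  let F : ℕ → (s → Fin T) := fun k i =>
    ⟨⌊Int.fract ((k : ℝ) * g i) * T⌋₊, by
      have h1 : Int.fract ((k : ℝ) * g i) < 1 := Int.fract_lt_one _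
      have h2 : 0 ≤ Int.fract ((k : ℝ) * g i) := Int.fract_nonneg _
      rw [Nat.floor_lt (by positivity)]
      calc Int.fract ((k : ℝ) * g i) * T < 1 * T := by gcongr
        _ = T := one_mul _⟩
  have hcard : (Finset.univ : Finset (s → Fin T)).card < (Finset.range (T ^ s.card + 1)).card := by
    rw [Finset.card_univ, Fintype.card_fun, Fintype.card_fin, Fintype.card_coe, Finset.card_range]
    exact Nat.lt_succ_self _
  obtain ⟨k, hk, l, hl, hkl, hF⟩ := Finset.exists_ne_map_eq_of_card_lt_of_maps_to hcard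
    (f := F) (fun _ _ => Finset.mem_univ _)
  -- order the two indices
  have main : ∀ k l : ℕ, k < l → l ≤ T ^ s.card → F k = F l →
      ∃ q : ℕ, 1 ≤ q ∧ q ≤ T ^ s.card ∧ ∀ i ∈ s, ∃ z : ℤ, |q * g i - z| ≤ 1 / T := by
    intro k l hkl hl hF
    refine ⟨l - k, by omega, by omega, fun i hi => ?_⟩
    refine ⟨⌊(l : ℝ) * g i⌋ - ⌊(k : ℝ) * g i⌋, ?_⟩
    have h1 := congrFun hF ⟨i, hi⟩
    have h2 : ⌊Int.fract ((k : ℝ) * g i) * T⌋₊ = ⌊Int.fract ((l : ℝ) * g i) * T⌋₊ :=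
      congrArg Fin.val h1
    have h3 : (((l - k : ℕ) : ℝ)) = (l : ℝ) - k := by
      rw [Nat.cast_sub hkl.le]
    rw [h3]
    push_cast
    have h4 : ((l : ℝ) - k) * g i - ((⌊(l : ℝ) * g i⌋ : ℝ) - (⌊(k : ℝ) * g i⌋ : ℝ)) =
        Int.fract ((l : ℝ) * g i) - Int.fract ((k : ℝ) * g i) := by
      have h5 := Int.self_sub_floor ((l : ℝ) * g i)
      have h6 := Int.self_sub_floor ((k : ℝ) * g i)
      rw [← h5, ← h6]
      ring
    rw [h4]
    set a := Int.fract ((l : ℝ) * g i) with ha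
    set b := Int.fract ((k : ℝ) * g i) with hb
    have ha0 : 0 ≤ a * T := mul_nonneg (Int.fract_nonneg _) hT0.le
    have hb0 : 0 ≤ b * T := mul_nonneg (Int.fract_nonneg _) hT0.le
    have h7 := Nat.floor_le ha0
    have h8 := Nat.lt_floor_add_one (a * T)
    have h9 := Nat.floor_le hb0
    have h10 := Nat.lt_floor_add_one (b * T)
    rw [h2] at h9 h10
    rw [le_div_iff₀ hT0]
    have h11 : |a - b| * T = |(a - b) * T| := by
      rw [abs_mul, abs_of_pos hT0]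
    rw [h11, abs_le]
    constructor <;> nlinarith
  have hk' := Finset.mem_range.1 hk
  have hl' := Finset.mem_range.1 hl
  rcases lt_or_gt_of_ne hkl with h | h
  · exact main k l h (by omega) hF
  · exact main l k h (by omega) hF.symm

theorem dirichlet_sim (T : Finset ℝ) (Q : ℕ) (hQ : 1 ≤ Q) :
    ∃ s : ℕ, 1 ≤ s ∧ s ≤ Q ^ T.card ∧
      ∀ t ∈ T, |(s : ℝ) * t - round ((s : ℝ) * t)| ≤ 1 / Q := by
  obtain ⟨q, h1, h2, h3⟩ := dirichlet_int T (fun t => t) Q hQ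
  refine ⟨q, h1, h2, fun t ht => ?_⟩
  obtain ⟨z, hz⟩ := h3 t ht
  exact (round_le _ z).trans hz

end Pool.Agent.Few
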